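import Pool.Agent.helper17.SG.Defs

/-!
# SpecK: the key step of project sg:

If the stationary measure `ν` of a cocompact action has a bounded density which is Hoelder in the
mean, then every holomorphic function `F` on the disc with `F (γ z) = F z + ψ γ` is constant.
Idea: the powers of `F` are paired with `ν` on the circles of radius `r < 1`; stationarity gives
that all moments `∑ μ s * ψ s ^ k` vanish, and since the support of `μ` is finite this forces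
`ψ = 0`.
-/

set_option autoImplicit false

open MeasureTheory Set Metric Filter Topology
open scoped ENNReal NNReal ComplexConjugate

namespace Pool.Agent.SG

/-- a holomorphic function on the disc with additive periods and logarithmic growth -/
structure EqHol {Γ : Type} [Group Γ] (A : DiscRep Γ) (F : ℂ → ℂ) (ψ : Γ → ℂ) (C : ℝ) : Prop where
  cpos : 1 ≤ C
  diff : DifferentiableOn ℂ F (ball 0 1)
  equi : ∀ γ z, ‖z‖ < 1 → F (A.act γ z) = F z + ψ γ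
  grow : ∀ z, ‖z‖ < 1 → ‖F z‖ ≤ C * (1 + Real.log (1 / (1 - ‖z‖)))

/-- `ν` has a bounded density `f` which is Hoelder in the mean: its `L^1` distance to its Poisson
smoothing of radius `ρ` is at most `C (1 - ρ) ^ a`. -/
structure RegDens (ν : Measure ℂ) (f : ℂ → ℝ) (C a : ℝ) : Prop where
  apos : 0 < a
  ale : a ≤ 1
  meas : Measurable f
  nonneg : ∀ ξ, 0 ≤ f ξ
  le : ∀ ξ, f ξ ≤ C
  dens : ν = lam.withDensity fun ξ => ENNReal.ofReal (f ξ)
  smooth : ∀ ρ ∈ Ioo (0 : ℝ) 1, ∫ ξ, |f ξ - ∫ ζ, poi (ρ * ξ) ζ ∂ν| ∂lam ≤ C * (1 - ρ) ^ a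

/-- K01. The measure `lam`.
Proof. `lam` is `(2π)⁻¹` times the image of Lebesgue measure on `Ioc 0 (2π)` under the continuous map
`circleMap 0 1`; total mass `(2π)⁻¹ * 2π = 1`; the image is carried by the unit circle; the integral
is `integral_map` (and `intervalIntegral.integral_of_le`), `Real.circleAverage` is
`(2π)⁻¹ • ∫ θ in 0..2π, g (circleMap 0 1 θ)`. -/
def K01_stmt : Prop :=
  IsProbabilityMeasure lam ∧ lam circᶜ = 0 ∧
  (∀ g : ℂ → ℂ, AEStronglyMeasurable g lam → ∫ ζ, g ζ ∂lam = Real.circleAverage g 0 1)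

/-- K02. Poisson formula for a function holomorphic near the closed disc.
Proof. Mathlib: `DiffContOnCl.circleAverage_poissonKernel_smul` (file
`Mathlib/Analysis/Complex/Poisson.lean`) with centre `0` and radius `1`; for `‖ζ‖ = 1`
`poissonKernel 0 z ζ = poi z ζ`; K01 turns the circle average into the integral (the integrand is
continuous on a neighbourhood of the circle minus nothing: it is `ContinuousOn` the compact set
`circ`, hence a.e. strongly measurable for `lam`, which is carried by `circ`). -/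
def K02_stmt : Prop := ∀ (R : ℝ) (H : ℂ → ℂ), 1 < R → DifferentiableOn ℂ H (ball 0 R) →
  ∀ z : ℂ, ‖z‖ < 1 → ∫ ζ, (poi z ζ : ℂ) * H ζ ∂lam = H z

/-- K03. Duality: pairing with `ν` on the circle of radius `ρ` is pairing of the boundary values with
the Poisson smoothing of `ν`.
Proof. For unit vectors `ξ, ζ` one has `‖ζ - ρ ξ‖ = ‖ξ - ρ ζ‖` (multiply `ζ - ρ ξ` by `conj ζ * conj ξ`
and conjugate, or expand the squares: both are `1 + ρ² - 2 ρ Re (ξ conj ζ)`), so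
`poi (ρ ξ) ζ = poi (ρ ζ) ξ`. By K02, `H (ρ ξ) = ∫ poi (ρ ξ) ζ * H ζ ∂lam` for `‖ξ‖ = 1`; integrate
over `ν` (carried by `circ`), exchange the integrals (Fubini: the integrand
`(ξ, ζ) ↦ poi (ρ ξ) ζ * H ζ` is measurable up to null sets and bounded by `(1+ρ)/(1-ρ) * sup ‖H‖` on
`circ × circ`, both measures finite; replace `H` by a continuous or measurable function which agrees
with it on `circ`, for instance the indicator of `circ` times `H`), and use the symmetry of the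
kernel. -/
def K03_stmt : Prop := ∀ (R : ℝ) (H : ℂ → ℂ), 1 < R → DifferentiableOn ℂ H (ball 0 R) →
  ∀ (ν : Measure ℂ), IsProbabilityMeasure ν → ν circᶜ = 0 → ∀ ρ ∈ Ioo (0 : ℝ) 1,
  ∫ ξ, H (ρ * ξ) ∂ν = ∫ ζ, H ζ * ((∫ ξ, poi (ρ * ζ) ξ ∂ν : ℝ) : ℂ) ∂lam

/-- K04. The one scale estimate.
Proof. `∫ H ∂ν = ∫ H f ∂lam` (`integral_withDensity_eq_integral_smul` or `toReal` version; `H` is
continuous on `circ`, and `lam`, `ν` are carried by `circ`). Write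
`∫ H f ∂lam = ∫ H (f - P) ∂lam + ∫ H P ∂lam`, `P ζ = ∫ poi (ρ ζ) ξ ∂ν`. The first integral has norm at
most `M₁ * ∫ |f - P| ∂lam ≤ M₁ * (C * (1 - ρ) ^ a)`; the second is `∫ H (ρ ξ) ∂ν` by K03, norm at most
`M₂`. (All integrands are bounded and a.e. strongly measurable; `P` is measurable and bounded by
`(1+ρ)/(1-ρ)` on `circ`, for instance by `StronglyMeasurable.integral_prod_right`.) -/
def K04_stmt : Prop := ∀ (R : ℝ) (H : ℂ → ℂ), 1 < R → DifferentiableOn ℂ H (ball 0 R) →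
  ∀ (ν : Measure ℂ) (f : ℂ → ℝ) (C a : ℝ), IsProbabilityMeasure ν → RegDens ν f C a →
  ∀ ρ ∈ Ioo (0 : ℝ) 1, ∀ M₁ M₂ : ℝ, (∀ ξ : ℂ, ‖ξ‖ = 1 → ‖H ξ‖ ≤ M₁) →
  (∀ ξ : ℂ, ‖ξ‖ = 1 → ‖H (ρ * ξ)‖ ≤ M₂) → ‖∫ ξ, H ξ ∂ν‖ ≤ M₁ * (C * (1 - ρ) ^ a) + M₂

/-- K05. Geometry of one Moebius map `g z = mob a b z`; put `t = ‖a‖ + ‖b‖ ≥ 1`, so that
`‖a‖ - ‖b‖ = 1 / t`, and `c = 1 / (2 t ^ 2)`.
Proof. For `‖z‖ ≤ 1`: `1 / t ≤ ‖conj b * z + conj a‖ ≤ t` and
`1 - ‖g z‖ ^ 2 = (1 - ‖z‖ ^ 2) / ‖conj b * z + conj a‖ ^ 2` (direct computation), so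
`1 - ‖g z‖ ≥ (1 - ‖g z‖ ^ 2) / 2 ≥ (1 - ‖z‖) / (2 t ^ 2)` (use `1 - ‖z‖ ^ 2 ≥ 1 - ‖z‖`), and
`‖g z‖ ≤ 1`, with equality iff `‖z‖ = 1`; `g z - g w = (z - w) / ((conj b * z + conj a) *
(conj b * w + conj a))`, so `g` is `t ^ 2`-Lipschitz on the closed disc. For (3):
`‖g (r z) - r g z‖ ≤ ‖g (r z) - g z‖ + (1 - r) ‖g z‖ ≤ (t ^ 2 + 1) (1 - r)`.
(4) `z ↦ g (r z)` and `z ↦ r * g z` map the closed disc into the open disc; the set of `z` in the open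
set `{conj b * z + conj a ≠ 0} ∩ {conj b * (r z) + conj a ≠ 0}` where `‖g (r z)‖ < 1` and
`‖r * g z‖ < 1` is open and contains the compact set `closedBall 0 1`, hence contains a ball of
radius `R > 1` (`IsCompact.exists_thickening_subset_open`, or explicitly: for
`‖z‖ < R` with `R` near `1`). -/
def K05_stmt : Prop := ∀ a b : ℂ, ‖a‖ ^ 2 - ‖b‖ ^ 2 = 1 → ∃ c L : ℝ, 0 < c ∧ c ≤ 1 ∧ 0 < L ∧
  (∀ z : ℂ, ‖z‖ ≤ 1 → ‖mob a b z‖ ≤ 1 ∧ c * (1 - ‖z‖) ≤ 1 - ‖mob a b z‖) ∧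
  (∀ z : ℂ, ‖z‖ = 1 → ‖mob a b z‖ = 1) ∧
  (∀ (r : ℝ) (z : ℂ), 0 < r → r < 1 → ‖z‖ ≤ 1 →
    ‖mob a b (r * z) - r * mob a b z‖ ≤ L * (1 - r)) ∧
  (∀ r : ℝ, 0 < r → r < 1 → ∃ R : ℝ, 1 < R ∧
    DifferentiableOn ℂ (fun z => mob a b (r * z)) (ball 0 R) ∧
    DifferentiableOn ℂ (fun z => (r : ℂ) * mob a b z) (ball 0 R) ∧
    (∀ z ∈ ball (0 : ℂ) R, ‖mob a b (r * z)‖ < 1 ∧ ‖(r : ℂ) * mob a b z‖ < 1))

/-- K06. Growth and Lipschitz estimate for the powers of `F`.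
Proof. (1) is `norm_pow` and monotonicity (`1 - ‖z‖ ≥ η` gives `log (1 / (1 - ‖z‖)) ≤ log (1 / η)`).
(2) On the convex set `closedBall 0 (1 - η)` the derivative of `F ^ k` at `u` is at most
`(2 / η) * sup {‖F v ^ k‖ : ‖v - u‖ = η / 2} ≤ (2 / η) * (C * (1 + log (2 / η))) ^ k` by Cauchy's
estimate (`Complex.norm_deriv_le_of_forall_mem_sphere_norm_le`) since `1 - ‖v‖ ≥ η / 2`; then the mean
value inequality `Convex.norm_image_sub_le_of_norm_deriv_le` (if `1 - η < 0` there is nothing to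
show). -/
def K06_stmt : Prop := ∀ (F : ℂ → ℂ) (C : ℝ), 1 ≤ C → DifferentiableOn ℂ F (ball 0 1) →
  (∀ z, ‖z‖ < 1 → ‖F z‖ ≤ C * (1 + Real.log (1 / (1 - ‖z‖)))) → ∀ k : ℕ, ∀ η : ℝ, 0 < η →
  (∀ z : ℂ, η ≤ 1 - ‖z‖ → ‖F z ^ k‖ ≤ (C * (1 + Real.log (1 / η))) ^ k) ∧
  (∀ z w : ℂ, η ≤ 1 - ‖z‖ → η ≤ 1 - ‖w‖ →
    ‖F z ^ k - F w ^ k‖ ≤ (2 / η) * (C * (1 + Real.log (2 / η))) ^ k * ‖z - w‖)

/-- K07. A limit of elementary functions.
Proof. With `x = 1 - r → 0+`: powers of `log (1 / x)` are `o(x ^ ε)` for every `ε > 0`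
(`isLittleO_log_rpow_atTop` and powers; or `Real.tendsto_pow_log_div_mul_add_atTop`...). Write
`log (1 / (c x)) = log (1 / c) + log (1 / x)`, `√x = x ^ (1/2)`,
`(√x) ^ a = x ^ (a / 2)`. First term: `O((1 + log (1/x)) ^ k) * x ^ (a / 2) → 0`. Second term:
`(2 / (c √x)) * x = (2 / c) √x`, times `O((1 + log (1/x)) ^ k)`, tends to `0`. -/
def K07_stmt : Prop := ∀ (k : ℕ) (a c C L D : ℝ), 0 < a → 0 < c → 
  Tendsto (fun r : ℝ => 2 * (C * (1 + Real.log (1 / (c * (1 - r))))) ^ k *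
      (D * (1 - (1 - √(1 - r))) ^ a) +
    (2 / (c * √(1 - r))) * (C * (1 + Real.log (2 / (c * √(1 - r))))) ^ k * (L * (1 - r)))
    (𝓝[<] 1) (𝓝 0)

/-- K08. The commutator of dilation and `s` disappears in the limit.
Proof. Let `a, b` be the coefficients of `s` and `c, L` as in K05. For `r ∈ (0, 1)` the function
`H z = F (s (r z)) ^ k - F (r * s z) ^ k` is holomorphic on a ball of radius `R > 1` (K05 (4),
composition). Use K04 with `ρ = 1 - √(1 - r)`. For `‖ξ‖ = 1`: both points `s (r ξ)` and `r * s ξ`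
have distance at least `c (1 - r)` from the circle (K05: `1 - ‖s (r ξ)‖ ≥ c (1 - r)`,
`1 - ‖r s ξ‖ ≥ 1 - r`, `c ≤ 1`), so `‖H ξ‖ ≤ M₁ := 2 (C (1 + log (1 / (c (1 - r))))) ^ k` by K06 (1).
For `‖z‖ = ρ`: both points have distance at least `η := c (1 - ρ) = c √(1 - r)` from the circle
(`1 - ‖s (r z)‖ ≥ c (1 - r ρ) ≥ c (1 - ρ)`, `1 - ‖r s z‖ ≥ 1 - ‖s z‖ ≥ c (1 - ρ)`), and their mutual
distance is at most `L (1 - r)` (K05 (3)), so by K06 (2)
`‖H z‖ ≤ M₂ := (2 / η) (C (1 + log (2 / η))) ^ k * (L (1 - r))`. Hence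
`‖∫ H ∂ν‖ ≤ M₁ (C' (1 - ρ) ^ a') + M₂ → 0` by K07 and `squeeze_zero_norm'`. -/
def K08_stmt : Prop := ∀ (Γ : Type) [Group Γ] (A : DiscRep Γ) (F : ℂ → ℂ) (ψ : Γ → ℂ) (C : ℝ)
  (ν : Measure ℂ) (f : ℂ → ℝ) (C' a' : ℝ), EqHol A F ψ C → IsProbabilityMeasure ν →
  RegDens ν f C' a' → ∀ (s : Γ) (k : ℕ),
  Tendsto (fun r : ℝ => ∫ ξ, (F (A.act s (r * ξ)) ^ k - F (r * A.act s ξ) ^ k) ∂ν) (𝓝[<] 1) (𝓝 0)

/-- K09. All moments vanish.
Proof. For `r ∈ (0, 1)` put `I_k(r) = ∫ F (r ξ) ^ k ∂ν` (bounded continuous integrand on the circle;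
`ν` is carried by `circ`). Stationarity `ν = ∑ μ s • ν.map (act s)` gives
`I_k(r) = ∑ (μ s).toReal * ∫ F (r * act s ξ) ^ k ∂ν` (`act s` is measurable; `μ s ≤ 1` is finite), and
`F (act s (r ξ)) = F (r ξ) + ψ s`, so
`∑ (μ s).toReal * ∫ ((F (r ξ) + ψ s) ^ k - F (r ξ) ^ k) ∂ν
   = ∑ (μ s).toReal * ∫ (F (act s (r ξ)) ^ k - F (r * act s ξ) ^ k) ∂ν → 0` by K08
(`∑ (μ s).toReal = 1`). By the binomial formula the left side is
`∑_{j=1}^{k} choose k j * m_j * I_{k-j}(r)`, `m_j = ∑ (μ s).toReal * ψ s ^ j`. Strong induction on `k`: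
if `m_j = 0` for `1 ≤ j < k` then the left side is the constant `m_k * I_0(r) = m_k`, whose limit is
`0`, so `m_k = 0`. -/
def K09_stmt : Prop := ∀ (Γ : Type) [Group Γ] (A : DiscRep Γ) (W : Walk Γ) (F : ℂ → ℂ)
  (ψ : Γ → ℂ) (C : ℝ) (ν : Measure ℂ) (f : ℂ → ℝ) (C' a' : ℝ), EqHol A F ψ C → Stat A W ν →
  RegDens ν f C' a' → ∀ k : ℕ, 1 ≤ k → ∑ s ∈ W.S, ((W.μ s).toReal : ℂ) * ψ s ^ k = 0

/-- K10. A finitely supported positive measure on `ℂ` all of whose moments of order at least `1`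
vanish is carried by `0`.
Proof. By linearity `∑ w s * p (ψ s) = 0` for every polynomial `p` with `p(0) = 0`. Let `V` be the finite
set of the nonzero values of `ψ` on `S`; suppose it is not empty. Lagrange interpolation gives a
polynomial `q` with `q (0) = 0` and `q v = 1` for `v ∈ V` (for instance
`q = 1 - ∏_{v ∈ V} (1 - X / v)`). Then `0 = ∑ w s * q (ψ s) = ∑_{ψ s ≠ 0} w s > 0`,
contradiction. -/
def K10_stmt : Prop := ∀ (ι : Type) (S : Finset ι) (w : ι → ℝ) (ψ : ι → ℂ),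
  (∀ s ∈ S, 0 < w s) → (∀ k : ℕ, 1 ≤ k → ∑ s ∈ S, (w s : ℂ) * ψ s ^ k = 0) → ∀ s ∈ S, ψ s = 0

/-- K11. If `ψ` vanishes on the support of the walk then `F` is constant.
Proof. `ψ (γ δ) = ψ γ + ψ δ` (apply `equi` at `0`: `act (γ δ) 0 = act γ (act δ 0)` by `A.map_mul`, and
`‖act δ 0‖ < 1` since `‖b‖ < ‖a‖`), and `ψ 1 = 0`; the set of `γ` with `ψ γ = 0` contains the closure of
`S`, so `ψ = 0` and `F (act γ z) = F z`. By cocompactness there is `r < 1` such that every value of `F` on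
the open disc is a value on `closedBall 0 r`; so `‖F‖` attains its maximum over `ball 0 1` at a point
of it (compactness of `closedBall 0 (max r 0)`), and `F` is constant on the ball
(`Complex.eqOn_of_isPreconnected_of_isMaxOn_norm`). -/
def K11_stmt : Prop := ∀ (Γ : Type) [Group Γ] (A : DiscRep Γ) (W : Walk Γ) (F : ℂ → ℂ)
  (ψ : Γ → ℂ) (C : ℝ), EqHol A F ψ C → A.Cocompact → (∀ s ∈ W.S, ψ s = 0) →
  ∀ z : ℂ, ‖z‖ < 1 → F z = F 0

/-- K12. KEY: no nonconstant `F` if `ν` has a regular density (K09, K10, K11). -/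
def K12_stmt : Prop := ∀ (Γ : Type) [Group Γ] (A : DiscRep Γ) (W : Walk Γ) (F : ℂ → ℂ)
  (ψ : Γ → ℂ) (C : ℝ) (ν : Measure ℂ) (f : ℂ → ℝ) (C' a' : ℝ), EqHol A F ψ C → Std A W ν →
  RegDens ν f C' a' → ∀ z : ℂ, ‖z‖ < 1 → F z = F 0

end Pool.Agent.SG
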