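import Mathlib

/-!
# The objects of the final statement (MP_2b8aea_gt)

The hyperbolic plane is the Poincare disc (the open unit disc), its boundary the unit circle with
the Euclidean (round) metric.
-/

set_option autoImplicit false

open MeasureTheory Set Metric Filter Topology
open scoped ENNReal NNReal ComplexConjugate commutatorElement

namespace Pool.Agent.SG

/-- The relator `[a_1, b_1] ⋯ [a_g, b_g]` of the closed oriented surface of genus `g`. -/
def surfRel (g : ℕ) : FreeGroup (Fin g × Bool) :=
  (List.ofFn fun i : Fin g => ⁅FreeGroup.of (i, false), FreeGroup.of (i, true)⁆).prod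

/-- The fundamental group of the closed oriented surface of genus `g`
(negative Euler characteristic means `2 ≤ g`). -/
abbrev SurfaceGroup (g : ℕ) : Type := PresentedGroup {surfRel g}

/-- The closed unit disc: the hyperbolic plane (open disc) with its boundary circle. -/
abbrev CDisc : Type := closedBall (0 : ℂ) 1

/-- The centre of the disc. -/
def CDisc.zero : CDisc := ⟨0, by simp⟩

lemma CDisc.norm_le (z : CDisc) : ‖(z : ℂ)‖ ≤ 1 :=
  mem_closedBall_zero_iff.1 z.2

lemma den_ne {a b z : ℂ} (h : ‖a‖ ^ 2 - ‖b‖ ^ 2 = 1) (hz : ‖z‖ ≤ 1) :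
    conj b * z + conj a ≠ 0 := by
  intro h0
  have h1 : ‖conj a‖ = ‖conj b * z‖ := by
    have : conj a = - (conj b * z) := by
      rw [add_comm] at h0
      exact eq_neg_of_add_eq_zero_left h0
    rw [this, norm_neg]
  rw [norm_mul, RCLike.norm_conj, RCLike.norm_conj] at h1
  have h2 : ‖a‖ ≤ ‖b‖ := by
    rw [h1]
    exact mul_le_of_le_one_right (norm_nonneg b) hz
  have h3 : ‖a‖ ^ 2 ≤ ‖b‖ ^ 2 := by
    exact pow_le_pow_left₀ (norm_nonneg a) h2 2
  linarith

/-- The orientation preserving isometries of the Poincare disc, extended to the closed disc: the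
maps `z ↦ (a z + b) / (conj b z + conj a)` with `|a|^2 - |b|^2 = 1`. -/
def IsomD : Subgroup (CDisc ≃ₜ CDisc) where
  carrier := {φ | ∃ a b : ℂ, ‖a‖ ^ 2 - ‖b‖ ^ 2 = 1 ∧
    ∀ z : CDisc, (φ z : ℂ) = (a * z + b) / (conj b * z + conj a)}
  one_mem' := ⟨1, 0, by simp, fun z => by simp⟩
  mul_mem' := by
    rintro φ ψ ⟨a, b, h, hφ⟩ ⟨c, d, k, hψ⟩
    refine ⟨a * c + b * conj d, a * d + b * conj c, ?_, fun z => ?_⟩
    · have e1 : ∀ w : ℂ, ‖w‖ ^ 2 = w.re ^ 2 + w.im ^ 2 := fun w => by
        rw [← Complex.normSq_eq_norm_sq, Complex.normSq_apply]; ring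
      rw [e1, e1] at h k ⊢
      simp only [Complex.add_re, Complex.add_im, Complex.mul_re, Complex.mul_im, Complex.conj_re,
        Complex.conj_im]
      have : (a.re ^ 2 + a.im ^ 2 - (b.re ^ 2 + b.im ^ 2)) *
        (c.re ^ 2 + c.im ^ 2 - (d.re ^ 2 + d.im ^ 2)) = 1 := by rw [h, k]; norm_num
      linear_combination this
    · have hz := z.norm_le
      have h1 : conj d * (z : ℂ) + conj c ≠ 0 := den_ne k hz
      have h2 : conj b * (ψ z : ℂ) + conj a ≠ 0 := den_ne h (ψ z).norm_le
      have h3 : ((φ * ψ) z : ℂ) = (φ (ψ z) : ℂ) := rfl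
      rw [h3, hφ, hψ]
      rw [hψ] at h2
      have hq : (c * (z : ℂ) + d) / (conj d * z + conj c) * (conj d * z + conj c) = c * z + d :=
        div_mul_cancel₀ _ h1
      generalize (c * (z : ℂ) + d) / (conj d * z + conj c) = q at hq h2
      have h4 : conj (a * d + b * conj c) * (z : ℂ) + conj (a * c + b * conj d) ≠ 0 := by
        have : conj (a * d + b * conj c) * (z : ℂ) + conj (a * c + b * conj d) =
            (conj b * q + conj a) * (conj d * z + conj c) := by
          simp only [map_add, map_mul, Complex.conj_conj]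
          linear_combination (-conj b) * hq
        rw [this]
        exact mul_ne_zero h2 h1
      rw [div_eq_div_iff h2 h4]
      simp only [map_add, map_mul, Complex.conj_conj]
      linear_combination (a * conj a - b * conj b) * hq
  inv_mem' := by
    rintro φ ⟨a, b, h, hφ⟩
    refine ⟨conj a, -b, by simpa using h, fun z => ?_⟩
    have hz := z.norm_le
    have h0 : ‖conj a‖ ^ 2 - ‖-b‖ ^ 2 = 1 := by simpa using h
    have h1 : conj (-b) * (z : ℂ) + conj (conj a) ≠ 0 := den_ne h0 hz
    have hw := (φ⁻¹ z : CDisc).norm_le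
    have h2 : conj b * ((φ⁻¹ z : CDisc) : ℂ) + conj a ≠ 0 := den_ne h hw
    have h3 : (z : ℂ) = (a * ((φ⁻¹ z : CDisc) : ℂ) + b) /
        (conj b * ((φ⁻¹ z : CDisc) : ℂ) + conj a) := by
      rw [← hφ]
      have : φ (φ⁻¹ z) = z := φ.apply_symm_apply z
      rw [this]
    rw [eq_div_iff h1]
    rw [eq_div_iff h2] at h3
    simp only [map_neg, Complex.conj_conj]
    linear_combination (-1 : ℂ) * h3

/-- `ρ` is a discrete and faithful representation of `Γ` by orientation preserving isometries of the
hyperbolic plane. (Discrete: for every `r < 1` only finitely many `γ` move the centre of the disc to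
Euclidean distance at most `r`, i.e. to bounded hyperbolic distance.) The Teichmueller space of the
surface consists of the conjugacy classes of these `ρ`. -/
structure DiscreteFaithful {Γ : Type} [Group Γ] (ρ : Γ →* IsomD) : Prop where
  faithful : Function.Injective ρ
  discrete : ∀ r : ℝ, r < 1 → {γ : Γ | ‖(((ρ γ : CDisc ≃ₜ CDisc) CDisc.zero : CDisc) : ℂ)‖ ≤ r}.Finite

/-- `μ` is admissible with finite support: its support is finite and generates `Γ` as a
semigroup. -/
structure FinAdmissible {Γ : Type} [Group Γ] (μ : PMF Γ) : Prop where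
  fin : μ.support.Finite
  gen : Subsemigroup.closure μ.support = ⊤

/-- `ν` is a `μ`-stationary probability measure on the boundary circle. The hitting measure of the
random walk with law `μ` is the unique such measure. -/
structure IsStationary {Γ : Type} [Group Γ] (μ : PMF Γ) (ρ : Γ →* IsomD) (ν : Measure CDisc) :
    Prop where
  prob : IsProbabilityMeasure ν
  boundary : ν {z | ‖(z : ℂ)‖ = 1}ᶜ = 0
  stationary : ∀ E : Set CDisc, MeasurableSet E →
    ν E = ∑' γ : Γ, μ γ * ν ((ρ γ : CDisc ≃ₜ CDisc) ⁻¹' E)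

/-- The dimension of a measure: the infimum of the Hausdorff dimensions of the Borel sets of full
measure. -/
noncomputable def measureDim {X : Type} [MetricSpace X] [MeasurableSpace X] (ν : Measure X) :
    ℝ≥0∞ :=
  ⨅ (E : Set X) (_ : MeasurableSet E) (_ : ν Eᶜ = 0), dimH E

/-- Question Q1 of MP_2b8aea_gt. -/
def Q1 : Prop := ∀ g : ℕ, 2 ≤ g → ∀ μ : PMF (SurfaceGroup g), FinAdmissible μ →
  ∃ δ : ℝ≥0∞, δ < 1 ∧ ∀ ρ : SurfaceGroup g →* IsomD, DiscreteFaithful ρ →
    ∀ ν : Measure CDisc, IsStationary μ ρ ν → measureDim ν ≤ δ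

end Pool.Agent.SG
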