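import Pool.Agent.helper17.SG.Defs
import Pool.Agent.helper68.SG.FinalDefs

/-!
# SpecF: from the working form to the final statement Q1 (project sg:)
-/

set_option autoImplicit false

open MeasureTheory Set Metric Filter Topology
open scoped ENNReal NNReal ComplexConjugate commutatorElement

namespace Pool.Agent.SG

/-- faithful -/
def DiscRep.Faithful {Γ : Type} [Group Γ] (A : DiscRep Γ) : Prop :=
  ∀ γ, (∀ z : ℂ, ‖z‖ ≤ 1 → A.act γ z = z) → γ = 1

/-- MAIN. The working form of the theorem: for every group with a nonzero homomorphism to the reals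
which is not solvable, and every finitely supported walk, there is a uniform bound `δ < 1` for the
dimension of all stationary measures of all discrete faithful representations. -/
def MAIN_stmt : Prop := ∀ (Γ : Type) [Group Γ], (∃ φ : Γ →* Multiplicative ℝ, φ ≠ 1) →
  ¬ Group.IsSolvable Γ → ∀ W : Walk Γ, ∃ δ : ℝ≥0, δ < 1 ∧ ∀ A : DiscRep Γ, A.Discrete → A.Faithful →
  ∀ ν : Measure ℂ, Stat A W ν → ∃ B : Set ℂ, MeasurableSet B ∧ ν Bᶜ = 0 ∧ dimH B ≤ δ

/-- F01. A homomorphism to `IsomD` gives a `DiscRep` with the same action.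
Proof. Choose for every `γ` coefficients `a γ, b γ` of `ρ γ` (definition of `IsomD`). `map_mul`: for
`‖z‖ ≤ 1` both sides are the value of `ρ (γ * δ) = ρ γ * ρ δ` at the point `⟨z, _⟩` of `CDisc`. If `ρ` is
discrete and faithful: `A.act γ 0 = ρ γ 0` gives `Discrete`; if `A.act γ z = z` for all `‖z‖ ≤ 1` then
`ρ γ = 1`, so `γ = 1`. -/
def F01_stmt : Prop := ∀ (Γ : Type) [Group Γ] (ρ : Γ →* IsomD), ∃ A : DiscRep Γ,
  (∀ (γ : Γ) (z : CDisc), (((ρ γ : CDisc ≃ₜ CDisc) z : CDisc) : ℂ) = A.act γ z) ∧
  (DiscreteFaithful ρ → A.Discrete ∧ A.Faithful)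

/-- F02. An admissible finitely supported `PMF` gives a `Walk`.
Proof. `S = μ.support` as a finset; the sum over `S` is `∑' = 1` (`tsum_eq_sum`); the submonoid closure
contains the subsemigroup closure, which is everything. -/
def F02_stmt : Prop := ∀ (Γ : Type) [Group Γ] (μ : PMF Γ), FinAdmissible μ →
  ∃ W : Walk Γ, (W.S : Set Γ) = μ.support ∧ ∀ γ, W.μ γ = μ γ

/-- F03. Stationary measures on the closed disc give stationary measures on `ℂ`.
Proof. `ν' = ν.map Subtype.val` is a probability measure with `ν' (sphere 0 1)ᶜ = 0`. For a measurable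
`E ⊆ ℂ`: `ν' E = ν (val ⁻¹' E) = ∑' γ, μ γ * ν (ρ γ ⁻¹' (val ⁻¹' E))`, the sum is over `W.S` (the other
terms are `0`), and `ρ γ ⁻¹' (val ⁻¹' E) = val ⁻¹' (A.act γ ⁻¹' E)`, so the term is
`μ γ * (ν'.map (A.act γ)) E` (`A.act γ` is measurable: a quotient of affine functions). -/
def F03_stmt : Prop := ∀ (Γ : Type) [Group Γ] (μ : PMF Γ) (ρ : Γ →* IsomD) (A : DiscRep Γ)
  (W : Walk Γ) (ν : Measure CDisc),
  (∀ (γ : Γ) (z : CDisc), (((ρ γ : CDisc ≃ₜ CDisc) z : CDisc) : ℂ) = A.act γ z) →
  (W.S : Set Γ) = μ.support → (∀ γ, W.μ γ = μ γ) → IsStationary μ ρ ν →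
  Stat A W (ν.map Subtype.val)

/-- F04. Transport of the dimension bound.
Proof. Take `E = val ⁻¹' B`; `ν Eᶜ = (ν.map val) Bᶜ = 0`; `Subtype.val` is an isometry, so
`dimH E = dimH (val '' E) ≤ dimH B` (`Isometry.dimH_image`, `dimH_mono`). Then `iInf₂_le` style. -/
def F04_stmt : Prop := ∀ (ν : Measure CDisc) (B : Set ℂ) (δ : ℝ≥0∞), MeasurableSet B →
  (ν.map Subtype.val) Bᶜ = 0 → dimH B ≤ δ → measureDim ν ≤ δ

/-- F05. A surface group of genus at least `1` has a nonzero homomorphism to the reals.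
Proof. `PresentedGroup.toGroup` for `f (i, b) = Multiplicative.ofAdd 1` if `i = 0` and `b = false`, else
`1`; the relator is a product of commutators, so it goes to `1` in a commutative group
(`List.prod` of `List.ofFn`, `map_list_prod`, `map_commutatorElement`,
`commutatorElement_eq_one_iff_mul_comm`). The image of the generator `(0, false)` is not `1`. -/
def F05_stmt : Prop := ∀ g : ℕ, 1 ≤ g → ∃ φ : SurfaceGroup g →* Multiplicative ℝ, φ ≠ 1

/-- F06. A surface group of genus at least `2` is not solvable.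
Proof. Let `σ, τ` generate `Equiv.Perm (Fin 5)` (for instance `finRotate 5` and `swap 0 1`,
`Equiv.Perm.closure_cycle_adjacent_swap`). The map `f (0, false) = σ`, `f (1, false) = τ`, all other
generators to `1`, kills the relator: every commutator `⁅f (i, false), f (i, true)⁆ = ⁅_, 1⁆ = 1`. So it
extends to `SurfaceGroup g →* Equiv.Perm (Fin 5)`, which is surjective; if the surface group were
solvable then `Equiv.Perm (Fin 5)` would be (`solvable_of_surjective`), contradiction to
`Equiv.Perm.fin_5_not_solvable`. -/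
def F06_stmt : Prop := ∀ g : ℕ, 2 ≤ g → ¬ Group.IsSolvable (SurfaceGroup g)

/-- F07. The working form implies Q1 (F01-F06). -/
def F07_stmt : Prop := MAIN_stmt → Q1

end Pool.Agent.SG
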