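import Pool.Agent.helper68.SG.SpecF
import Pool.Agent.helper3.SG.SpecS

/-!
# SpecT: surface groups are torsion free and not abelian; second form of the final reduction
(project sg:)
-/

set_option autoImplicit false

open MeasureTheory Set Metric Filter Topology
open scoped ENNReal NNReal ComplexConjugate commutatorElement

namespace Pool.Agent.SG

/-- T01. An HNN extension of a torsion free group is torsion free.
Proof. Let `x ^ n = 1`, `0 < n`. Among all reduced words (`HNNExtension.NormalWord.ReducedWord`, every
element of the extension is the product of one: `prod_smul_empty`, `d` from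
`TransversalPair.nonempty`) whose product is conjugate to `x` choose one, `w`, with the smallest
length `k` of its list; after conjugating with `of head` we may move the head into the last letter,
so if `k ≥ 1` we may assume `head = 1` (the chain condition does not look at the last group letter).
If `k = 0` then `x` is conjugate to `of g`; `of g ^ n = 1`, `of` is injective (`of_injective`), so
`g = 1` and `x = 1`. If `k ≥ 1`, let the list be `(u₁, g₁), …, (u_k, g_k)`. Claim: if
`g_k ∈ toSubgroup A B u_k` then `u_k = u₁` (for `k = 1` trivial). Otherwise `k ≥ 2`,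
`u₁ = - u_k`, and conjugating by the last letter block `t^{u_k} * of g_k` gives the product
`(t^{u_k} g_k t^{-u_k}) g₁ t^{u₂} … t^{u_{k-1}} g_{k-1}` with
`t^{u_k} g_k t^{-u_k} ∈ of.range` (`toSubgroupEquiv`, `equiv_eq_conj`, `equiv_symm_eq_conj`), a reduced
word of length `k - 2`, contradiction to minimality. So the `n`-fold repetition of the list is again
chained, i.e. a reduced word with head `1` and product `(conjugate of x) ^ n = 1 ∈ of.range`; Britton
(`toList_eq_nil_of_mem_of_range`) says that its list is empty, but its length is `n k > 0`. -/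
def T01_stmt : Prop := ∀ (G : Type) [Group G] (A B : Subgroup G) (φ : A ≃* B), TF G →
  TF (HNNExtension G A B φ)

/-- the generators of the surface group except `a_1 = (0, false)` -/
abbrev Gen1 (g : ℕ) : Type := {x : Fin (g + 1) × Bool // x ≠ (0, false)}

/-- `a_i` or `b_i` in the free group on `Gen1`, `i ≠ 0` or `b = true` -/
def gn1 (g : ℕ) (i : Fin (g + 1)) (b : Bool) : FreeGroup (Gen1 g) :=
  if h : (i, b) ≠ (0, false) then FreeGroup.of ⟨(i, b), h⟩ else 1

/-- the product of the commutators with index at least `1` in the free group on `Gen1` -/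
def W1 (g : ℕ) : FreeGroup (Gen1 g) :=
  (List.ofFn fun i : Fin g => ⁅gn1 g i.succ false, gn1 g i.succ true⁆).prod

/-- T02. The two cyclic subgroups.
Proof. Let `b = gn1 g 0 true = FreeGroup.of ⟨(0, true), _⟩` and `c = (W1 g)⁻¹ * b`. The homomorphism
`FreeGroup (Gen1 g) →* Multiplicative ℤ` which is `ofAdd 1` on `(0, true)` and `1` on the other
generators kills `W1` (commutators) and maps `b` and `c` to `ofAdd 1`; so both have infinite order
and `b ^ k ↦ c ^ k` is a well defined isomorphism of `zpowers b` to `zpowers c` (for instance compose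
`zpowersEquivZPowers`-type equivalences, or take `(zmultiples/zpowers ≃ ℤ)`; define the inverse by the
homomorphism above followed by `k ↦ b ^ k`). -/
def T02_stmt : Prop := ∀ g : ℕ, ∃ φ : Subgroup.zpowers (gn1 g 0 true) ≃*
    Subgroup.zpowers ((W1 g)⁻¹ * gn1 g 0 true),
  ∀ k : ℤ, ((φ ⟨(gn1 g 0 true) ^ k, ⟨k, rfl⟩⟩ : Subgroup.zpowers ((W1 g)⁻¹ * gn1 g 0 true)) :
    FreeGroup (Gen1 g)) = ((W1 g)⁻¹ * gn1 g 0 true) ^ k

/-- T03. The surface group of genus `g + 1` embeds in an HNN extension of a free group (uses T02).
Proof. Let `φ` be from T02, `E = HNNExtension (FreeGroup (Gen1 g)) (zpowers b) (zpowers c) φ` with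
stable letter `t`, so `t * of b * t⁻¹ = of c = of (W1⁻¹ * b)` (`equiv_eq_conj`). The map of generators
`(0, false) ↦ t`, `x ↦ of (FreeGroup.of ⟨x, _⟩)` for `x ≠ (0, false)` sends the relator
`⁅a_1, b_1⁆ * ∏_{i ≥ 1} ⁅a_i, b_i⁆` (`List.ofFn_succ`) to `t b t⁻¹ b⁻¹ * of W1 = 1`. This gives
`f : SurfaceGroup (g + 1) →* E`. In the other direction `HNNExtension.lift` of the homomorphism
`FreeGroup (Gen1 g) →* SurfaceGroup (g + 1)`, `⟨x, _⟩ ↦ PresentedGroup.of x`, and
`PresentedGroup.of (0, false)`; the condition for `a = b ^ k ∈ zpowers b` is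
`a_1 * b_1 ^ k = (W1⁻¹ b_1) ^ k * a_1` in the surface group, which follows from
`a_1 b_1 a_1⁻¹ = W1⁻¹ b_1` (the relation). The composition `SurfaceGroup → E → SurfaceGroup` is the
identity on the generators, hence the identity (`PresentedGroup.ext`), so `f` is injective. -/
def T03_stmt : Prop := ∀ g : ℕ, ∃ (A B : Subgroup (FreeGroup (Gen1 g))) (φ : A ≃* B)
  (f : SurfaceGroup (g + 1) →* HNNExtension (FreeGroup (Gen1 g)) A B φ), Function.Injective f

/-- T04. Surface groups are torsion free (uses T01, T03).
Proof. Free groups are torsion free (instance `IsMulTorsionFree (FreeGroup α)` in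
`Mathlib/GroupTheory/FreeGroup/CyclicallyReduced.lean`); T01; a subgroup of a torsion free group is
torsion free. -/
def T04_stmt : Prop := ∀ g : ℕ, 1 ≤ g → TF (SurfaceGroup g)

/-- T05. Surface groups of genus at least `2` are not abelian (uses F06: an abelian group is
solvable). -/
def T05_stmt : Prop := ∀ g : ℕ, 2 ≤ g → NonAb (SurfaceGroup g)

/-- MAIN2. The working form of the theorem, second version (output of stage 2). -/
def MAIN2_stmt : Prop := ∀ (Γ : Type) [Group Γ], (∃ φ : Γ →* Multiplicative ℝ, φ ≠ 1) →
  TF Γ → NonAb Γ → ∀ W : Walk Γ, ∃ δ : ℝ≥0, δ < 1 ∧ ∀ A : DiscRep Γ, A.Discrete →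
  ∀ ν : Measure ℂ, Stat A W ν → ∃ B : Set ℂ, MeasurableSet B ∧ ν Bᶜ = 0 ∧ dimH B ≤ δ

/-- T06. MAIN2 implies Q1. Uses F01, F02, F03, F04, F05, T04, T05 (and the definition of Q1); the
proof of F07 in Pool/Agent/helper53/SG/F07.lean can be adapted. -/
def T06_stmt : Prop := MAIN2_stmt → Q1

end Pool.Agent.SG
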