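import Pool.Agent.helper1.SG.F03
import Pool.Agent.helper1.SG.K11
import Pool.Agent.helper1.SG.M03
import Pool.Agent.helper11.SG.K02
import Pool.Agent.helper11.SG.R05
import Pool.Agent.helper11.SG.S32
import Pool.Agent.helper12.SG.M11
import Pool.Agent.helper13.SG.S10
import Pool.Agent.helper15.SG.D05
import Pool.Agent.helper15.SG.R09
import Pool.Agent.helper17.SG.B12
import Pool.Agent.helper17.SG.Glue
import Pool.Agent.helper18.SG.S08
import Pool.Agent.helper2.SG.M08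
import Pool.Agent.helper20.SG.K09
import Pool.Agent.helper20.SG.M05
import Pool.Agent.helper20.SG.P04
import Pool.Agent.helper23.SG.B09
import Pool.Agent.helper23.SG.D04
import Pool.Agent.helper23.SG.M04
import Pool.Agent.helper23.SG.S05
import Pool.Agent.helper24.SG.D03
import Pool.Agent.helper24.SG.S22
import Pool.Agent.helper24.SG.T03
import Pool.Agent.helper26.SG.S03
import Pool.Agent.helper28.SG.T01
import Pool.Agent.helper29.SG.B04
import Pool.Agent.helper29.SG.S11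
import Pool.Agent.helper3.SG.Z01
import Pool.Agent.helper30.SG.B15
import Pool.Agent.helper30.SG.M12
import Pool.Agent.helper31.SG.D12
import Pool.Agent.helper31.SG.K06
import Pool.Agent.helper31.SG.S28
import Pool.Agent.helper37.SG.S24
import Pool.Agent.helper39.SG.R04
import Pool.Agent.helper40.SG.F02
import Pool.Agent.helper40.SG.K04
import Pool.Agent.helper40.SG.MAIN2
import Pool.Agent.helper40.SG.R07
import Pool.Agent.helper41.SG.M10
import Pool.Agent.helper42.SG.S21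
import Pool.Agent.helper48.SG.AllH
import Pool.Agent.helper49.SG.K07
import Pool.Agent.helper50.SG.B17
import Pool.Agent.helper50.SG.F04
import Pool.Agent.helper50.SG.S07
import Pool.Agent.helper51.SG.B05
import Pool.Agent.helper51.SG.H18
import Pool.Agent.helper51.SG.S13
import Pool.Agent.helper52.SG.B07
import Pool.Agent.helper52.SG.F05
import Pool.Agent.helper52.SG.S02
import Pool.Agent.helper52.SG.S31
import Pool.Agent.helper52.SG.Z02
import Pool.Agent.helper53.SG.M02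
import Pool.Agent.helper56.SG.AllG
import Pool.Agent.helper57.SG.N01
import Pool.Agent.helper57.SG.S15
import Pool.Agent.helper58.SG.F06
import Pool.Agent.helper58.SG.T02
import Pool.Agent.helper59.SG.K05
import Pool.Agent.helper59.SG.S04
import Pool.Agent.helper6.SG.K03
import Pool.Agent.helper61.SG.K10
import Pool.Agent.helper61.SG.T05
import Pool.Agent.helper63.SG.B02
import Pool.Agent.helper63.SG.F01
import Pool.Agent.helper63.SG.P03
import Pool.Agent.helper63.SG.P09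
import Pool.Agent.helper65.SG.R02
import Pool.Agent.helper65.SG.S23
import Pool.Agent.helper66.SG.D06
import Pool.Agent.helper66.SG.S20
import Pool.Agent.helper68.SG.T06
import Pool.Agent.helper72.SG.D09
import Pool.Agent.helper72.SG.K08
import Pool.Agent.helper72.SG.S06
import Pool.Agent.helper72.SG.S19
import Pool.Agent.helper73.SG.S29
import Pool.Agent.helper76.SG.D02
import Pool.Agent.helper76.SG.M07
import Pool.Agent.helper76.SG.R08
import Pool.Agent.helper76.SG.S01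
import Pool.Agent.helper76.SG.S14
import Pool.Agent.helper77.SG.D11
import Pool.Agent.helper77.SG.M06
import Pool.Agent.helper78.SG.T04
import Pool.Agent.helper81.SG.H19
import Pool.Agent.helper81.SG.S25
import Pool.Agent.helper82.SG.K12
import Pool.Agent.helper84.SG.Z04
import Pool.Agent.helper85.SG.D08
import Pool.Agent.helper85.SG.R03
import Pool.Agent.helper87.SG.B16
import Pool.Agent.helper87.SG.M09
import Pool.Agent.helper87.SG.P02
import Pool.Agent.helper87.SG.S26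
import Pool.Agent.helper9.SG.R01
import Pool.Agent.helper9.SG.S16
import Pool.Agent.helper9.SG.Z03
import Pool.Agent.helper90.SG.D01
import Pool.Agent.helper90.SG.S12
import Pool.Agent.helper90.SG.S17
import Pool.Agent.helper90.SG.S18
import Pool.Agent.helper91.SG.B11
import Pool.Agent.helper92.SG.B08
import Pool.Agent.helper92.SG.D10
import Pool.Agent.helper93.SG.S09
import Pool.Agent.helper94.SG.R10
import Pool.Agent.helper95.SG.D07
import Pool.Agent.helper95.SG.S30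
import Pool.Agent.helper95.SG.S33
import Pool.Agent.helper96.SG.R06
import Pool.Agent.helper96.SG.S27
import Pool.Agent.helper97.SG.N02
import Pool.Agent.helper98.SG.B01
import Pool.Agent.helper99.SG.N03

/-!
# Assembly of project sg: (MP_2b8aea_gt)
-/

set_option autoImplicit false

namespace Pool.Agent.SG.All

theorem aF01 : Pool.Agent.SG.F01_stmt := Pool.Agent.SG.F01
theorem aF02 : Pool.Agent.SG.F02_stmt := Pool.Agent.SG.F02
theorem aF03 : Pool.Agent.SG.F03_stmt := Pool.Agent.SG.F03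
theorem aF04 : Pool.Agent.SG.F04_stmt := Pool.Agent.SG.F04
theorem aF05 : Pool.Agent.SG.F05_stmt := Pool.Agent.SG.F05
theorem aT01 : Pool.Agent.SG.T01_stmt := Pool.Agent.SG.T01
theorem aT02 : Pool.Agent.SG.T02_stmt := Pool.Agent.SG.T02
theorem aT03 : Pool.Agent.SG.T03_stmt := Pool.Agent.SG.T03 aT02
theorem aT04 : Pool.Agent.SG.T04_stmt := Pool.Agent.SG.T04 aT01 aT03
theorem aF06 : Pool.Agent.SG.F06_stmt := Pool.Agent.SG.F06
theorem aT05 : Pool.Agent.SG.T05_stmt := Pool.Agent.SG.T05 aF06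
theorem aT06 : Pool.Agent.SG.T06_stmt := Pool.Agent.SG.T06 aF01 aF02 aF03 aF04 aF05 aT04 aT05
theorem aS01 : Pool.Agent.SG.S01_stmt := Pool.Agent.SG.S01
theorem aS02 : Pool.Agent.SG.S02_stmt := Pool.Agent.SG.S02 aS01
theorem aS04 : Pool.Agent.SG.S04_stmt := Pool.Agent.SG.S04 aS01 aS02
theorem aS05 : Pool.Agent.SG.S05_stmt := Pool.Agent.SG.S05 aS01 aS02 aS04
theorem aS03 : Pool.Agent.SG.S03_stmt := Pool.Agent.SG.S03 aS01 aS02
theorem aS06 : Pool.Agent.SG.S06_stmt := Pool.Agent.SG.S06 aS01 aS03 aS04 aS05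
theorem aS07 : Pool.Agent.SG.S07_stmt := Pool.Agent.SG.S07 aS01 aS05 aS06
theorem aS13 : Pool.Agent.SG.S13_stmt := Pool.Agent.SG.S13 aS02
theorem aS17 : Pool.Agent.SG.S17_stmt := Pool.Agent.SG.S17 aS01
theorem aS19 : Pool.Agent.SG.S19_stmt := Pool.Agent.SG.S19 aS17
theorem aS32 : Pool.Agent.SG.S32_stmt := Pool.Agent.SG.S32
theorem aM01 : Pool.Agent.SG.M01_stmt := Pool.Agent.SG.AllH.m01
theorem aB01 : Pool.Agent.SG.B01_stmt := Pool.Agent.SG.B01
theorem aM03 : Pool.Agent.SG.M03_stmt := Pool.Agent.SG.M03 aM01 aB01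
theorem aZ02 : Pool.Agent.SG.Z02_stmt := Pool.Agent.SG.Z02 aS07 aS13 aS19 aS32 aM03
theorem aS18 : Pool.Agent.SG.S18_stmt := Pool.Agent.SG.S18 aS01 aS17
theorem aS20 : Pool.Agent.SG.S20_stmt := Pool.Agent.SG.S20
theorem aS08 : Pool.Agent.SG.S08_stmt := Pool.Agent.SG.S08
theorem aS09 : Pool.Agent.SG.S09_stmt := Pool.Agent.SG.S09 aS01
theorem aS10 : Pool.Agent.SG.S10_stmt := Pool.Agent.SG.S10 aS02 aS04 aS06 aS09
theorem aS23 : Pool.Agent.SG.S23_stmt := Pool.Agent.SG.S23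
theorem aS21 : Pool.Agent.SG.S21_stmt := Pool.Agent.SG.S21
theorem aS22 : Pool.Agent.SG.S22_stmt := Pool.Agent.SG.S22 aS02 aS17 aS21
theorem aS24 : Pool.Agent.SG.S24_stmt := Pool.Agent.SG.S24 aS01 aS02 aS18 aS20 aS22
theorem aS25 : Pool.Agent.SG.S25_stmt := Pool.Agent.SG.S25 aS01 aS02
theorem aS26 : Pool.Agent.SG.S26_stmt := Pool.Agent.SG.S26 aS09
theorem aS27 : Pool.Agent.SG.S27_stmt := Pool.Agent.SG.S27 aS06 aS08 aS10 aS13 aS23 aS24 aS25 aS26
theorem aS28 : Pool.Agent.SG.S28_stmt := Pool.Agent.SG.S28 aS02 aS17 aS18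
theorem aS29 : Pool.Agent.SG.S29_stmt := Pool.Agent.SG.S29
theorem aS30 : Pool.Agent.SG.S30_stmt := Pool.Agent.SG.S30
theorem aS31 : Pool.Agent.SG.S31_stmt := Pool.Agent.SG.S31 aS02 aS28 aS29 aS30
theorem aZ03 : Pool.Agent.SG.Z03_stmt := Pool.Agent.SG.Z03 aS07 aS18 aS20 aS27 aS31 aM03
theorem aS11 : Pool.Agent.SG.S11_stmt := Pool.Agent.SG.S11 aS06 aS09 aS10
theorem aS12 : Pool.Agent.SG.S12_stmt := Pool.Agent.SG.S12 aS01
theorem aS14 : Pool.Agent.SG.S14_stmt := Pool.Agent.SG.S14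
theorem aS15 : Pool.Agent.SG.S15_stmt := Pool.Agent.SG.S15
theorem aS16 : Pool.Agent.SG.S16_stmt := Pool.Agent.SG.S16
theorem aM04 : Pool.Agent.SG.M04_stmt := Pool.Agent.SG.M04
theorem aB02 : Pool.Agent.SG.B02_stmt := Pool.Agent.SG.B02 aB01
theorem aB04 : Pool.Agent.SG.B04_stmt := Pool.Agent.SG.B04 aB02
theorem aM05 : Pool.Agent.SG.M05_stmt := Pool.Agent.SG.M05 aM01 aB04
theorem aP05 : Pool.Agent.SG.P05_stmt := Pool.Agent.SG.AllH.p05
theorem aP07 : Pool.Agent.SG.P07_stmt := Pool.Agent.SG.AllH.p07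
theorem aB03 : Pool.Agent.SG.B03_stmt := Pool.Agent.SG.AllH.b03
theorem aB10 : Pool.Agent.SG.B10_stmt := Pool.Agent.SG.AllH.b10
theorem aB14 : Pool.Agent.SG.B14_stmt := Pool.Agent.SG.AllH.b14
theorem aM06 : Pool.Agent.SG.M06_stmt := Pool.Agent.SG.M06 aP05 aP07 aB03 aB10 aB14 aM01
theorem aM07 : Pool.Agent.SG.M07_stmt := Pool.Agent.SG.M07 aM01 aM03 aM04 aM05 aM06 aB14
theorem aM08 : Pool.Agent.SG.M08_stmt := Pool.Agent.SG.M08 aB01 aM01 aM07
theorem aB05 : Pool.Agent.SG.B05_stmt := Pool.Agent.SG.B05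
theorem aB06 : Pool.Agent.SG.B06_stmt := Pool.Agent.SG.AllH.b06
theorem aM09 : Pool.Agent.SG.M09_stmt := Pool.Agent.SG.M09 aM08 aB01 aB05 aB06 aB14
theorem aB13 : Pool.Agent.SG.B13_stmt := Pool.Agent.SG.AllH.b13
theorem aB15 : Pool.Agent.SG.B15_stmt := Pool.Agent.SG.B15 aB01 aB03 aB04 aB06
theorem aP02 : Pool.Agent.SG.P02_stmt := Pool.Agent.SG.P02
theorem aM02 : Pool.Agent.SG.M02_stmt := Pool.Agent.SG.M02 aP02 aM01
theorem aB16 : Pool.Agent.SG.B16_stmt := Pool.Agent.SG.B16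
theorem aB07 : Pool.Agent.SG.B07_stmt := Pool.Agent.SG.B07 aB03
theorem aB08 : Pool.Agent.SG.B08_stmt := Pool.Agent.SG.B08 aB03 aB07
theorem aM10 : Pool.Agent.SG.M10_stmt := Pool.Agent.SG.M10 aM01 aM03 aM04 aM05 aM06 aB08 aB14
theorem aM11 : Pool.Agent.SG.M11_stmt := Pool.Agent.SG.M11 aM10
theorem aP01 : Pool.Agent.SG.P01_stmt := Pool.Agent.SG.AllH.p01
theorem aP03 : Pool.Agent.SG.P03_stmt := Pool.Agent.SG.P03 aP01
theorem aP04 : Pool.Agent.SG.P04_stmt := Pool.Agent.SG.P04 aP01 aP03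
theorem aM12 : Pool.Agent.SG.M12_stmt := Pool.Agent.SG.M12 aB01 aB03 aB05 aB14 aB15 aB16 aM01 aM02 aM11 aP04
theorem aR01 : Pool.Agent.SG.R01_stmt := Pool.Agent.SG.R01
theorem aR02 : Pool.Agent.SG.R02_stmt := Pool.Agent.SG.R02 aB01 aB03 aB05 aB13 aB15 aM01 aM02 aM12 aP01 aP03 aP04 aR01
theorem aR03 : Pool.Agent.SG.R03_stmt := Pool.Agent.SG.R03 aB05 aM11 aM12 aR01
theorem aR04 : Pool.Agent.SG.R04_stmt := Pool.Agent.SG.R04 aR02 aR03 aB05 aB14 aB16
theorem aN01 : Pool.Agent.SG.N01_stmt := Pool.Agent.SG.N01 aB01 aB02 aB03 aB14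
theorem aP08 : Pool.Agent.SG.P08_stmt := Pool.Agent.SG.AllH.p08
theorem aB09 : Pool.Agent.SG.B09_stmt := Pool.Agent.SG.B09 aB03 aB07
theorem aB18 : Pool.Agent.SG.B18_stmt := Pool.Agent.SG.AllH.b18
theorem aN02 : Pool.Agent.SG.N02_stmt := Pool.Agent.SG.N02 aP05 aP08 aB01 aB03 aB04 aB09 aB10 aB14 aB18 aM01 aM03 aM04
theorem aN03 : Pool.Agent.SG.N03_stmt := Pool.Agent.SG.N03 aB01 aB03 aB05 aB13 aB15 aB16 aM11 aN01 aN02
theorem aB11 : Pool.Agent.SG.B11_stmt := Pool.Agent.SG.B11 aB01 aB02 aB03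
theorem aB12 : Pool.Agent.SG.B12_stmt := Pool.Agent.SG.B12 aB03 aB04 aB07 aB11
theorem aP09 : Pool.Agent.SG.P09_stmt := Pool.Agent.SG.P09 aP01 aP05
theorem aR05 : Pool.Agent.SG.R05_stmt := Pool.Agent.SG.R05 aP05 aP09 aB09 aB10 aB18
theorem aR06 : Pool.Agent.SG.R06_stmt := Pool.Agent.SG.R06 aR05 aP05 aP08 aM01 aM03 aM04 aB04 aB14 aB18
theorem aB17 : Pool.Agent.SG.B17_stmt := Pool.Agent.SG.B17
theorem aR07 : Pool.Agent.SG.R07_stmt := Pool.Agent.SG.R07 aR04 aR05 aR06 aB05 aB17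
theorem aR08 : Pool.Agent.SG.R08_stmt := Pool.Agent.SG.R08 aR04 aR05 aR06 aB03 aB14 aB18 aP01 aP03 aP04
theorem aR09 : Pool.Agent.SG.R09_stmt := Pool.Agent.SG.R09 aR03 aR08 aB03 aB05 aB13 aB14 aB16 aB17 aP01 aP03 aP04
theorem aR10 : Pool.Agent.SG.R10_stmt := Pool.Agent.SG.R10 aR09 aB05 aB11 aB12 aB17 aM01 aM02 aM03 aM04 aM05 aM12
theorem aCOMP : Pool.Agent.SG.COMP_stmt := Pool.Agent.SG.COMP aB03 aB12 aR04 aR07 aR09 aR10
theorem aH17 : Pool.Agent.SG.H17_stmt := Pool.Agent.SG.AllH.h17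
theorem aK01 : Pool.Agent.SG.K01_stmt := Pool.Agent.SG.AllH.k01
theorem aK02 : Pool.Agent.SG.K02_stmt := Pool.Agent.SG.K02 aK01
theorem aH18 : Pool.Agent.SG.H18_stmt := Pool.Agent.SG.H18 aB05 aK02
theorem aH19 : Pool.Agent.SG.H19_stmt := Pool.Agent.SG.H19 aH17 aH18 aK01
theorem aK05 : Pool.Agent.SG.K05_stmt := Pool.Agent.SG.K05
theorem aK03 : Pool.Agent.SG.K03_stmt := Pool.Agent.SG.K03 aK01 aK02
theorem aK04 : Pool.Agent.SG.K04_stmt := Pool.Agent.SG.K04 aK01 aK03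
theorem aK06 : Pool.Agent.SG.K06_stmt := Pool.Agent.SG.K06
theorem aK07 : Pool.Agent.SG.K07_stmt := Pool.Agent.SG.K07
theorem aK08 : Pool.Agent.SG.K08_stmt := Pool.Agent.SG.K08 aK04 aK05 aK06 aK07
theorem aK09 : Pool.Agent.SG.K09_stmt := Pool.Agent.SG.K09 aK05 aK08
theorem aK10 : Pool.Agent.SG.K10_stmt := Pool.Agent.SG.K10
theorem aK11 : Pool.Agent.SG.K11_stmt := Pool.Agent.SG.K11
theorem aK12 : Pool.Agent.SG.K12_stmt := Pool.Agent.SG.K12 aK09 aK10 aK11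
theorem aGEX : Pool.Agent.SGG.GEX_stmt := Pool.Agent.SGG.gEX
theorem aSING : Pool.Agent.SG.SING_stmt := Pool.Agent.SG.SING aB12 aM09 aCOMP aH19 aK12 aGEX
theorem aZ01 : Pool.Agent.SG.Z01_stmt := Pool.Agent.SG.Z01_of aM09 aR04 aN03 aSING
theorem aD01 : Pool.Agent.SG.D01_stmt := Pool.Agent.SG.D01
theorem aD02 : Pool.Agent.SG.D02_stmt := Pool.Agent.SG.D02
theorem aD03 : Pool.Agent.SG.D03_stmt := Pool.Agent.SG.D03 aD02
theorem aD04 : Pool.Agent.SG.D04_stmt := Pool.Agent.SG.D04 aD03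
theorem aD05 : Pool.Agent.SG.D05_stmt := Pool.Agent.SG.D05 aD02
theorem aD06 : Pool.Agent.SG.D06_stmt := Pool.Agent.SG.D06 aD01 aD04 aD05
theorem aD08 : Pool.Agent.SG.D08_stmt := Pool.Agent.SG.D08 aP05 aP07 aB01 aB03 aB14
theorem aD09 : Pool.Agent.SG.D09_stmt := Pool.Agent.SG.D09 aD08 aB01 aB14
theorem aD07 : Pool.Agent.SG.D07_stmt := Pool.Agent.SG.D07
theorem aD10 : Pool.Agent.SG.D10_stmt := Pool.Agent.SG.D10 aD02 aD07 aB01 aB04 aB07 aB14
theorem aD11 : Pool.Agent.SG.D11_stmt := Pool.Agent.SG.D11 aD06 aD09 aD10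
theorem aD12 : Pool.Agent.SG.D12_stmt := Pool.Agent.SG.D12
theorem aZ04 : Pool.Agent.SG.Z04_stmt := Pool.Agent.SG.Z04 aS02 aS07 aS11 aS12 aS14 aS15 aS16 aZ01 aM03 aM04 aB14 aD11 aD12
theorem aS33 : Pool.Agent.SG.S33_stmt := Pool.Agent.SG.S33
theorem aMAIN2 : Pool.Agent.SG.MAIN2_stmt := Pool.Agent.SG.MAIN2 aZ02 aZ03 aZ04 aS07 aS33 aM07

end Pool.Agent.SG.All
namespace Pool.Agent.SG.All

/-- Question Q1 of MP_2b8aea_gt. -/
theorem aQ1 : Pool.Agent.SG.Q1 := aT06 aMAIN2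

end Pool.Agent.SG.All
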